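import Pool.Agent.R263.PteH

set_option autoImplicit false

/-!
# Weighted `L²` infimum over monic integer polynomials: the integer case and ideal
Prouhet-Tarry-Escott solutions

`I λ` is the infimum over monic integer polynomials `P` of
`∫_{-π}^{π} |1 - e^{iθ}|^{2λ} |P(e^{iθ})|² dθ`.
-/

open MeasureTheory Real

namespace Pool.Agent.Results.MP_658dbf_an.PTECriterion

/-- The set of values of the integral over monic integer polynomials. -/
def values (lam : ℝ) : Set ℝ :=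
  {v | ∃ P : Polynomial ℤ, P.Monic ∧
    v = ∫ θ in (-π)..π, ‖1 - Complex.exp (θ * Complex.I)‖ ^ (2 * lam) *
      ‖Polynomial.aeval (Complex.exp (θ * Complex.I)) P‖ ^ 2}

/-- The infimum of the problem. -/
noncomputable def I (lam : ℝ) : ℝ := sInf (values lam)

/-- `4 π λ Γ(2μ+1) / (Γ(μ+1) Γ(μ+2))` with `μ` the fractional part of `λ`. -/
noncomputable def L (lam : ℝ) : ℝ :=
  4 * π * lam * Gamma (2 * Int.fract lam + 1) /
    (Gamma (Int.fract lam + 1) * Gamma (Int.fract lam + 2))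

/-- Two disjoint sets of `n` natural numbers with equal power sums for all exponents `< n`
(an ideal Prouhet–Tarry–Escott solution of size `n` with distinct entries). -/
def IdealPTE (n : ℕ) : Prop :=
  ∃ A B : Finset ℕ, Disjoint A B ∧ A.card = n ∧ B.card = n ∧
    ∀ k < n, ∑ a ∈ A, a ^ k = ∑ b ∈ B, b ^ k

open Pool.Agent.R263.Pte

lemma value_split {lam μ : ℝ} (d : ℕ) (h0 : 0 ≤ μ) (hl : lam = d + μ) (hlam : 0 < lam)
    (P : Polynomial ℤ) :
    ∫ θ in (-π)..π, ‖1 - Complex.exp (θ * Complex.I)‖ ^ (2 * lam) *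
      ‖Polynomial.aeval (Complex.exp (θ * Complex.I)) P‖ ^ 2 =
    ∫ θ in (-π)..π, (ww θ) ^ μ * ‖(1 - cz θ) ^ d * Polynomial.aeval (cz θ) P‖ ^ 2 := by
  apply intervalIntegral.integral_congr
  intro θ _
  exact weight_split d h0 hl θ _ hlam

lemma values_nonempty (lam : ℝ) : (values lam).Nonempty := ⟨_, 1, Polynomial.monic_one, rfl⟩

lemma values_nonneg (lam : ℝ) : ∀ v ∈ values lam, 0 ≤ v := by
  rintro v ⟨P, _, rfl⟩
  apply intervalIntegral.integral_nonneg (by linarith [pi_pos])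
  intro θ _
  positivity

lemma values_bdd (lam : ℝ) : BddBelow (values lam) := ⟨0, fun v hv => values_nonneg lam v hv⟩

lemma I_le {lam μ : ℝ} (d : ℕ) (h0 : 0 ≤ μ) (hl : lam = d + μ) (hlam : 0 < lam)
    (P : Polynomial ℤ) (hP : P.Monic) :
    I lam ≤ ∫ θ in (-π)..π, (ww θ) ^ μ * ‖(1 - cz θ) ^ d * Polynomial.aeval (cz θ) P‖ ^ 2 := by
  rw [← value_split d h0 hl hlam P]
  exact csInf_le (values_bdd lam) ⟨P, hP, rfl⟩

lemma le_I {lam μ v : ℝ} (d : ℕ) (h0 : 0 ≤ μ) (hl : lam = d + μ) (hlam : 0 < lam)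
    (h : ∀ P : Polynomial ℤ, P.Monic →
      v ≤ ∫ θ in (-π)..π, (ww θ) ^ μ * ‖(1 - cz θ) ^ d * Polynomial.aeval (cz θ) P‖ ^ 2) :
    v ≤ I lam := by
  apply le_csInf (values_nonempty lam)
  rintro w ⟨P, hP, rfl⟩
  rw [value_split d h0 hl hlam P]
  exact h P hP

lemma floor_split {lam : ℝ} (hlam : 0 ≤ lam) :
    lam = (⌊lam⌋₊ : ℝ) + Int.fract lam := by
  rw [natCast_floor_eq_intCast_floor hlam]
  exact (Int.floor_add_fract lam).symm

lemma L_eq {lam : ℝ} (hlam : 0 ≤ lam) :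
    L lam = ∫ θ in (-π)..π, (ww θ) ^ (Int.fract lam) * Bd ⌊lam⌋₊ θ := by
  rw [JB_eq (Int.fract_nonneg lam), ← floor_split hlam]
  rfl

lemma lower_all {lam : ℝ} (hlam : 1 ≤ lam) : L lam ≤ I lam := by
  have h0 : 0 ≤ lam := by linarith
  rw [L_eq h0]
  obtain ⟨d, hd⟩ : ∃ d, ⌊lam⌋₊ = d + 1 :=
    ⟨⌊lam⌋₊ - 1, by have := Nat.le_floor (show ((1 : ℕ) : ℝ) ≤ lam by simpa using hlam); omega⟩
  refine le_I ⌊lam⌋₊ (Int.fract_nonneg lam) (floor_split h0) (by linarith) ?_
  intro P hP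
  rw [hd]
  exact lower (Int.fract_nonneg lam) (Int.fract_lt_one lam) d P hP.ne_zero

lemma L_nat (n : ℕ) : L n = 4 * π * n := by
  unfold L
  rw [Int.fract_natCast]
  simp

lemma I_nat_le (n : ℕ) (hn : 1 ≤ n) (P : Polynomial ℤ) (hP : P.Monic) :
    I n ≤ ∫ θ in (-π)..π, ‖(1 - cz θ) ^ n * Polynomial.aeval (cz θ) P‖ ^ 2 := by
  have := I_le (lam := n) (μ := 0) n le_rfl (by simp) (by exact_mod_cast hn) P hP
  simpa using this

lemma pte_value (n : ℕ) (hn : 1 ≤ n) (h : IdealPTE n) : I n = 4 * π * n := by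
  apply le_antisymm
  · obtain ⟨A, B, hAB, hA, hB, hpow⟩ := h
    obtain ⟨P, hP, hv⟩ := sets_poly A B hAB (by
      obtain ⟨a, ha⟩ : A.Nonempty := by rw [← Finset.card_pos]; omega
      exact ⟨a, Finset.mem_union_left _ ha⟩) n hpow
    have h1 := I_nat_le n hn P hP
    rw [hv, hA, hB] at h1
    linarith
  · rw [← L_nat n]
    exact lower_all (by exact_mod_cast hn)

lemma value_pte (n : ℕ) (hn : 1 ≤ n) (h : I n = 4 * π * n) : IdealPTE n := by
  have hlt : I n < 2 * π * (2 * n + 1) := by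
    rw [h]; have := pi_pos; nlinarith
  obtain ⟨v, ⟨P, hP, rfl⟩, hv⟩ := exists_lt_of_csInf_lt (values_nonempty n) hlt
  rw [value_split (μ := 0) n le_rfl (by simp) (by exact_mod_cast hn) P] at hv
  exact pte_of_value n hn P hP.ne_zero (by simpa using hv)

/-- for integer `n ≥ 1` every value is `4 π m` with `m` a natural number -/
lemma value_int (n : ℕ) (hn : 1 ≤ n) (P : Polynomial ℤ) :
    ∃ m : ℕ, ∫ θ in (-π)..π, ‖(1 - cz θ) ^ n * Polynomial.aeval (cz θ) P‖ ^ 2 = 4 * π * m := by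
  classical
  set R : Polynomial ℤ := (Polynomial.X - 1) ^ n * P with hR
  set D := R.natDegree + 1 with hD
  have hn2 : ∀ θ, ‖(1 - cz θ) ^ n * Polynomial.aeval (cz θ) P‖ =
      ‖Polynomial.aeval (cz θ) (Rp (Finset.range D) R.coeff id)‖ := by
    intro θ
    rw [hD, ← poly_eq_Rp R, hR, map_mul, map_pow, norm_mul, norm_mul, norm_pow, norm_pow]
    simp only [map_sub, Polynomial.aeval_X, map_one]
    rw [norm_sub_rev]
  simp_rw [hn2]
  rw [integral_Rp0 _ _ _ (Set.injOn_id _)]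
  have hev : Polynomial.eval 1 R = 0 := by
    rw [hR, Polynomial.eval_mul, Polynomial.eval_pow]
    simp [zero_pow (show n ≠ 0 by omega)]
  have hsum : ∑ i ∈ Finset.range D, R.coeff i = 0 := by
    rw [← hev, Polynomial.eval_eq_sum_range]
    simp [hD]
  have hpar : (2 : ℤ) ∣ ∑ i ∈ Finset.range D, R.coeff i ^ 2 := by
    have h1 : (2 : ℤ) ∣ ∑ i ∈ Finset.range D, (R.coeff i ^ 2 - R.coeff i) := by
      apply Finset.dvd_sum
      intro i _
      have := Int.even_mul_succ_self (R.coeff i - 1)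
      rw [even_iff_two_dvd] at this
      convert this using 1
      ring
    rw [Finset.sum_sub_distrib, hsum, sub_zero] at h1
    exact h1
  obtain ⟨k, hk⟩ := hpar
  have hk0 : 0 ≤ k := by
    have : 0 ≤ ∑ i ∈ Finset.range D, R.coeff i ^ 2 := Finset.sum_nonneg fun i _ => sq_nonneg _
    omega
  refine ⟨k.toNat, ?_⟩
  rw [hk]
  have : ((k.toNat : ℕ) : ℝ) = (k : ℝ) := by
    have h := Int.toNat_of_nonneg hk0
    exact_mod_cast congrArg (fun z : ℤ => (z : ℝ)) h
  rw [this]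
  push_cast
  ring

/-- for integer `n ≥ 1` the infimum is attained and equals `4 π m` for some natural `m ≥ n` -/
lemma attained (n : ℕ) (hn : 1 ≤ n) :
    ∃ m : ℕ, n ≤ m ∧ I n = 4 * π * m ∧ I n ∈ values n := by
  classical
  have hn0 : (0 : ℝ) < n := by exact_mod_cast hn
  have hpi := pi_pos
  have hval : ∀ v ∈ values (n : ℝ), ∃ m : ℕ, v = 4 * π * m := by
    rintro v ⟨P, _, rfl⟩
    rw [value_split (μ := 0) n le_rfl (by simp) hn0 P]
    simpa using value_int n hn P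
  have hex : ∃ m : ℕ, 4 * π * (m : ℝ) ∈ values (n : ℝ) := by
    obtain ⟨v, hv⟩ := values_nonempty (n : ℝ)
    obtain ⟨m, hm⟩ := hval v hv
    exact ⟨m, hm ▸ hv⟩
  have hI : I n = 4 * π * ((Nat.find hex : ℕ) : ℝ) := by
    apply le_antisymm
    · exact csInf_le (values_bdd _) (Nat.find_spec hex)
    · apply le_csInf (values_nonempty _)
      intro v hv
      obtain ⟨m, rfl⟩ := hval v hv
      have : Nat.find hex ≤ m := Nat.find_min' hex hv
      have h2 : ((Nat.find hex : ℕ) : ℝ) ≤ m := by exact_mod_cast this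
      nlinarith
  refine ⟨Nat.find hex, ?_, hI, hI ▸ Nat.find_spec hex⟩
  have h1 := lower_all (lam := n) (by exact_mod_cast hn)
  rw [L_nat, hI] at h1
  have h2 : (n : ℝ) ≤ ((Nat.find hex : ℕ) : ℝ) := le_of_mul_le_mul_left h1 (by positivity)
  exact_mod_cast h2

/-- **Main result.** -/
theorem result :
    -- integers: the value `4 π n` is taken iff an ideal solution of size `n` exists
    (∀ n : ℕ, 1 ≤ n → (I n = 4 * π * n ↔ IdealPTE n)) ∧
    -- integers: the infimum is a minimum and an integer multiple of `4 π`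
    (∀ n : ℕ, 1 ≤ n → ∃ m : ℕ, n ≤ m ∧ I n = 4 * π * m ∧ I n ∈ values n) ∧
    -- upper bounds for all `λ ≥ 1`
    (∀ (n : ℕ) (μ : ℝ), 1 ≤ n → 0 ≤ μ →
      I (n + μ) ≤ I n * (Gamma (2 * μ + 1) / Gamma (μ + 1) ^ 2)) ∧
    (∀ n : ℕ, 1 ≤ n → I n ≤ 2 * π * ((n : ℝ) ^ 2 - n + 2)) := by
  refine ⟨fun n hn => ⟨value_pte n hn, pte_value n hn⟩, attained, ?_, ?_⟩
  · intro n μ hn h0
    have hn0 : (0 : ℝ) < n := by exact_mod_cast hn
    have hJ : 0 ≤ Gamma (2 * μ + 1) / Gamma (μ + 1) ^ 2 := by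
      have h1 : 0 < Gamma (2 * μ + 1) := Gamma_pos_of_pos (by linarith)
      positivity
    -- it suffices to compare with every value at `n`
    apply le_of_forall_pos_le_add
    intro δ hδ
    obtain ⟨v, ⟨P, hP, rfl⟩, hv⟩ := exists_lt_of_csInf_lt (values_nonempty (n : ℝ))
      (show sInf (values (n : ℝ)) < I n + δ / 2 / (Gamma (2 * μ + 1) / Gamma (μ + 1) ^ 2 + 1) from
        lt_add_of_pos_right _ (by positivity))
    rw [value_split (μ := 0) n le_rfl (by simp) hn0 P] at hv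
    obtain ⟨P', hP', hb⟩ := upper_scale (n := n) P hP h0 (half_pos hδ)
    have h2 := I_le (lam := n + μ) n h0 rfl (by linarith) P' hP'
    refine (h2.trans hb).trans ?_
    rw [J_eq h0]
    simp only [rpow_zero, one_mul] at hv
    set K := Gamma (2 * μ + 1) / Gamma (μ + 1) ^ 2 with hK
    set V := ∫ θ in (-π)..π, ‖(1 - cz θ) ^ n * Polynomial.aeval (cz θ) P‖ ^ 2 with hV
    have hpi := pi_pos
    have e1 : 2 * π * Gamma (2 * μ + 1) / Gamma (μ + 1) ^ 2 * (V / (2 * π)) = K * V := by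
      rw [hK]; field_simp
    rw [e1]
    have h3 : K * V ≤ K * (I n + δ / 2 / (K + 1)) := mul_le_mul_of_nonneg_left hv.le hJ
    have h4 : K * (δ / 2 / (K + 1)) ≤ δ / 2 := by
      rw [← mul_div_assoc, div_le_iff₀ (by positivity)]
      nlinarith
    linarith
  · intro n hn
    obtain ⟨P, hP, hv⟩ := exists_small_int n hn
    exact (I_nat_le n hn P hP).trans hv

end Pool.Agent.Results.MP_658dbf_an.PTECriterion
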